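import Pool.Agent.W2helper69.U.Fin
import Pool.Agent.W2helper69.U.MS3
import Pool.Agent.TH822.AA.Main

/-!
# Pair correlation of the zeros of zeta at almost all distances, unconditionally

For `0 < η, c ≤ 1` and test functions supported in `(-μ, μ)`, where `μ < η + c` and
`μ < (1 + η + c) / 2` (so `μ` may exceed `1`, and be close to `3/2`): for almost all pairs
`(t, u)` with `T ≤ t ≤ 2 T` and `u` in an interval of length at least `T ^ c`, the pair correlation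
function at distance `u`, of the zeros with ordinates in `(t, t + H]` and `(t + u, t + u + H]`,
`H ≥ T ^ η`, is that of independent families of points.
-/

set_option autoImplicit false

open Filter Topology Complex MeasureTheory

namespace Pool.Agent.Results.MP_f58427_nt.AlmostAllDistancesUnconditional

/-- the nontrivial zeros of zeta with ordinate in `(a, b]` -/
def zeros (a b : ℝ) : Set ℂ :=
  {s : ℂ | riemannZeta s = 0 ∧ 0 < s.re ∧ s.re < 1 ∧ a < s.im ∧ s.im ≤ b}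

/-- the multiplicity of a zero -/
noncomputable def m (s : ℂ) : ℂ := (analyticOrderNatAt riemannZeta s : ℂ)

/-- the pair correlation function at distance `u`: the sum over the pairs of zeros `s`, `s'` with
ordinates in `(t, t + H]` and in `(t + u, t + u + H]` -/
noncomputable def F (t H u T α : ℝ) : ℂ :=
  ((H * Real.log T / (2 * Real.pi) : ℝ) : ℂ)⁻¹ * ∑ᶠ s ∈ zeros t (t + H),
    ∑ᶠ s' ∈ zeros (t + u) (t + u + H), m s * m s' *
      ((T : ℂ) ^ ((α : ℂ) * (s' - s - I * u)) * cexp ((s' - s - I * u) ^ 2 / 4))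

lemma zeros_eq (T₁ T₂ : ℝ) : zeros T₁ T₂ = H370.zset riemannZeta T₁ T₂ := by
  ext s
  simp only [zeros, H370.zset, Set.mem_ofPred_eq]
  tauto

/-- the sets of zeros that are summed over are finite -/
theorem zeros_finite (T₁ T₂ : ℝ) (h : 0 < T₁) : (zeros T₁ T₂).Finite := by
  rw [zeros_eq]
  exact H370.zset_finite' H370.good_zeta T₁ T₂ h

lemma F_eq (t H u T α : ℝ) (ht : 1 ≤ t) (htu : 1 ≤ t + u) (hT : 0 < T) :
    F t H u T α = Pool.Agent.W2helper69.U.FN riemannZeta t H u T α := by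
  have hT' : (T : ℂ) ≠ 0 := by exact_mod_cast hT.ne'
  unfold F Pool.Agent.W2helper69.U.FN Pool.Agent.W2helper69.U.cu
  rw [zeros_eq, H370.finsum_Zf H370.good_zeta ht]
  congr 1
  refine Finset.sum_congr rfl fun s _ => ?_
  rw [zeros_eq, H370.finsum_Zf H370.good_zeta htu]
  refine Finset.sum_congr rfl fun s' _ => ?_
  have e1 : (T : ℂ) ^ ((α : ℂ) * (s' - s - I * u)) = cexp (I * ((α * Real.log T : ℝ) : ℂ) *
      (H370.zz s' - H370.zz s - u)) := by
    rw [Complex.cpow_def_of_ne_zero hT', ← Complex.ofReal_log hT.le]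
    congr 1
    unfold H370.zz
    push_cast
    linear_combination ((Real.log T : ℂ) * α * (s' - s)) * I_sq
  have e2 : (s' - s - I * u) ^ 2 / 4 = -(H370.zz s' - H370.zz s - u) ^ 2 / 4 := by
    unfold H370.zz
    linear_combination ((s' - s) ^ 2 / 4 + u ^ 2 / 4) * I_sq
  rw [e1, e2]
  rfl

theorem result :
    ∀ η c μ ε : ℝ, 0 < η → η ≤ 1 → 0 < c → c ≤ 1 → 0 < μ → μ < η + c → μ < (1 + η + c) / 2 →
    0 < ε → ∀ ψ : ℝ → ℝ, Continuous ψ → (∀ x, μ ≤ |x| → ψ x = 0) →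
    ∃ δ : ℝ, 0 < δ ∧ ∃ T₀ : ℝ, ∀ T : ℝ, T₀ ≤ T → ∀ H : ℝ, T ^ η ≤ H → H ≤ T →
      ∀ a b : ℝ, 0 ≤ a → b ≤ T → T ^ c ≤ b - a →
      volume {z : ℝ × ℝ | z.1 ∈ Set.Icc T (2 * T) ∧ z.2 ∈ Set.Icc a b ∧
        ε < ‖(∫ α in (-μ)..μ, (ψ α : ℂ) * F z.1 H z.2 T α) - (ψ 0 : ℂ)‖} ≤
          ENNReal.ofReal ((b - a) * T ^ (1 - δ)) := by
  intro η c μ ε hη hη1 hc hc1 hμ hμ1 hμ2 hε ψ hψ hz
  obtain ⟨δ, hδ, T0, hT0, h⟩ := Pool.Agent.W2helper69.U.finU H370.good_zeta
    (fun n => (H370.A2.lamC_norm n).le)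
    (fun s hs _ => H370.A2.ld_zeta s hs) (by positivity : (0 : ℝ) ≤ η / 16)
    (Pool.Agent.TH822.AA.bz_z (η / 16) (by positivity) (by linarith)) η c μ ε hη hη1
    (by linarith) hμ (by linarith)
    (Pool.Agent.W2helper69.U.msh_two (fun n => (H370.A2.lamC_norm n).le) η c μ hη hη1 hc hc1 hμ1
      (by linarith)) hε ψ hψ hz
  refine ⟨δ, hδ, T0, fun T hT H hH1 hH2 a b ha hb hab => (measure_mono ?_).trans
    (h T hT H hH1 hH2 a b ha hb hab)⟩
  rintro z ⟨hz1, hz2, hz3⟩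
  refine ⟨hz1, hz2, ?_⟩
  have hT10 : 10 ≤ T := hT0.trans hT
  have h1 : ∫ α in (-μ)..μ, (ψ α : ℂ) * F z.1 H z.2 T α =
      ∫ α in (-μ)..μ, (ψ α : ℂ) * Pool.Agent.W2helper69.U.FN riemannZeta z.1 H z.2 T α := by
    refine intervalIntegral.integral_congr fun α _ => ?_
    show (ψ α : ℂ) * F z.1 H z.2 T α = _
    rw [F_eq z.1 H z.2 T α (by linarith [hz1.1]) (by linarith [hz1.1, hz2.1]) (by linarith)]
  rw [h1] at hz3
  exact hz3

end Pool.Agent.Results.MP_f58427_nt.AlmostAllDistancesUnconditional
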