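import Pool.Agent.W2helper93.NV.Main2
import Pool.Agent.W2helper93.NV.Mom

namespace Pool.Agent.Results.MP_f58427_nt.BoundedDiscrepancy

/-- multiplicity of `s` as a zero of the Riemann zeta function (order of vanishing at `s`) -/
noncomputable def zmult (s : ℂ) : ℕ := analyticOrderNatAt riemannZeta s

/-- the nontrivial zeros of `ζ` -/
def ZZ : Set ℂ := {s : ℂ | riemannZeta s = 0 ∧ 0 < s.re ∧ s.re < 1}

/-- `N*(T, a)` as in the problem: the number of ordered pairs `(γ, γ')` of ordinates of nontrivial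
zeros, counted with multiplicity, with `0 < γ ≤ T` and `0 < γ - γ' ≤ 2πa / log T` -/
noncomputable def Nstar (T a : ℝ) : ℕ :=
  ∑ᶠ p ∈ {p : ℂ × ℂ | p.1 ∈ ZZ ∧ p.2 ∈ ZZ ∧ 0 < p.1.im ∧ p.1.im ≤ T ∧
    0 < p.1.im - p.2.im ∧ p.1.im - p.2.im ≤ 2 * Real.pi * a / Real.log T}, zmult p.1 * zmult p.2

/-- `M(a) = (1/2π) ∫_0^a (1 - (sin πu / πu)²) du`, the limit conjectured in Q1 -/
noncomputable def M (a : ℝ) : ℝ :=
  1 / (2 * Real.pi) * ∫ u in (0 : ℝ)..a, (1 - (Real.sin (Real.pi * u) / (Real.pi * u)) ^ 2)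

/-- `N(T)`: the number of nontrivial zeros with ordinate in `(0, T]`, with multiplicity -/
noncomputable def NT (T : ℝ) : ℕ :=
  ∑ᶠ s ∈ {s : ℂ | s ∈ ZZ ∧ 0 < s.im ∧ s.im ≤ T}, zmult s

/-- the number of ordered pairs `(γ, γ')` of ordinates with `0 < γ ≤ T` and `γ = γ'`, with
multiplicity (so it is at least `N(T)`) -/
noncomputable def NE (T : ℝ) : ℕ :=
  ∑ᶠ p ∈ {p : ℂ × ℂ | p.1 ∈ ZZ ∧ p.2 ∈ ZZ ∧ 0 < p.1.im ∧ p.1.im ≤ T ∧ p.1.im = p.2.im},
    zmult p.1 * zmult p.2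

/-- The discrepancy in Q1 is bounded and has a bounded primitive, unconditionally. With one
constant `C` and all large `T`: (1) `N*(T, a) - M(a) T log T` is `O(T log T)` uniformly for
`a log a ≤ (log T) / 2`; (2) the corrected discrepancy
`N*(T, a) + (NE(T) - N(T))/2 - M(a) T log T` has a bounded primitive in `a`, up to the factor
`T log T`; (3) hence every interval `[α, α + C/ε]` in the range contains a point `a` where the
corrected discrepancy is at most `ε T log T`. -/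
theorem result : ∃ C T0 : ℝ, 0 < C ∧ 2 ≤ T0 ∧
    (∀ T : ℝ, T0 ≤ T →
      (∀ a : ℝ, 0 < a → a * Real.log a ≤ Real.log T / 2 →
        |(Nstar T a : ℝ) - M a * (T * Real.log T)| ≤ C * (T * Real.log T)) ∧
      (∀ α β : ℝ, 0 ≤ α → α ≤ β → β * Real.log β ≤ Real.log T / 2 →
        |∫ a in α..β, ((Nstar T a : ℝ) + ((NE T : ℝ) - (NT T : ℝ)) / 2 -
          M a * (T * Real.log T))| ≤ C * T * (Real.log T + β * (β - α)))) ∧
    (∀ ε : ℝ, 0 < ε → ∃ T1 : ℝ, ∀ T : ℝ, T1 ≤ T → ∀ α : ℝ, 0 ≤ α →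
      (α + C / ε) * Real.log (α + C / ε) ≤ Real.log T / 2 →
        ∃ a ∈ Set.Icc α (α + C / ε),
          |(Nstar T a : ℝ) + ((NE T : ℝ) - (NT T : ℝ)) / 2 - M a * (T * Real.log T)| ≤
            ε * (T * Real.log T)) := by
  obtain ⟨lam, hlam, hW⟩ := Pool.Agent.W2helper93.NV.wmom
  obtain ⟨C1, T1, hC1, hT1, h1, h2⟩ := Pool.Agent.W2helper93.NV.main4 hlam hW
  exact ⟨C1, T1, hC1, by linarith, fun T hT => h1 T hT, h2⟩

end Pool.Agent.Results.MP_f58427_nt.BoundedDiscrepancy
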