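import Pool.Agent.W2helper24.FP.Main

/-!
# The pair correlation conjecture and one-sided bounds at large distances, without RH

`E(T, a)` is the error in Q1 of the problem, divided by `T log T`. For every filter `F` of heights
that is finer than `T → ∞` (for instance `T → ∞` itself, or a sequence of heights) it is shown,
without any hypothesis on the zeros, that Q1 along `F` is equivalent to the lower bound alone for
`E(T, a)` at large distances `a`, with an error that is quasi-analytically small in `a`, and also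
equivalent to the upper bound alone together with the fact that almost all zeros are simple and on
the critical line.
-/

open Filter Topology

namespace Pool.Agent.Results.MP_f58427_nt.LargeDistances

/-- multiplicity of `s` as a zero of the Riemann zeta function (order of vanishing at `s`) -/
noncomputable def zmult (s : ℂ) : ℕ := analyticOrderNatAt riemannZeta s

/-- the nontrivial zeros of `ζ` -/
def ZZ : Set ℂ := {s : ℂ | riemannZeta s = 0 ∧ 0 < s.re ∧ s.re < 1}

/-- `N*(T, a)` as in the problem: the number of ordered pairs `(γ, γ')` of ordinates of nontrivial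
zeros, counted with multiplicity, with `0 < γ ≤ T` and `0 < γ - γ' ≤ 2πa / log T` -/
noncomputable def Nstar (T a : ℝ) : ℕ :=
  ∑ᶠ p ∈ {p : ℂ × ℂ | p.1 ∈ ZZ ∧ p.2 ∈ ZZ ∧ 0 < p.1.im ∧ p.1.im ≤ T ∧
    0 < p.1.im - p.2.im ∧ p.1.im - p.2.im ≤ 2 * Real.pi * a / Real.log T}, zmult p.1 * zmult p.2

/-- the number of zeros with ordinate in `(0, T]`, counted with multiplicity, that are off the
critical line or multiple -/
noncomputable def Nbad (T : ℝ) : ℕ :=
  ∑ᶠ s ∈ {s : ℂ | s ∈ ZZ ∧ 0 < s.im ∧ s.im ≤ T ∧ (s.re ≠ 1 / 2 ∨ zmult s ≠ 1)}, zmult s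

/-- `N*(T, a) / (T log T)` minus the value predicted by Montgomery -/
noncomputable def E (T a : ℝ) : ℝ :=
  (Nstar T a : ℝ) / (T * Real.log T) - 1 / (2 * Real.pi) * ∫ u in (0 : ℝ)..a,
    (1 - (Real.sin (Real.pi * u) / (Real.pi * u)) ^ 2)

/-- Q1 of the problem, for the heights `T` running along `F` (Q1 itself is the case
`F = atTop`) -/
def PCC (F : Filter ℝ) : Prop := ∀ a : ℝ, 0 < a → Tendsto (fun T => E T a) F (𝓝 0)

/-- a non-decreasing sequence of positive numbers with divergent sum of reciprocals -/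
def Slow (β : ℕ → ℝ) : Prop := Monotone β ∧ 0 < β 0 ∧ ¬ Summable fun i => (β i)⁻¹

/-- `s · E(T, a) ≥ - B ∏_{i < k} (β_i / a)² - o(1)` for every `k` and every positive `a` in some
set that is dense in some half line, for some slowly growing sequence `β` and some `B` -/
def OneSided (F : Filter ℝ) (s : ℝ) : Prop :=
  ∃ (β : ℕ → ℝ) (B A : ℝ) (Q : Set ℝ), Slow β ∧ Set.Ici A ⊆ closure Q ∧
    ∀ a ∈ Q, 0 < a → ∀ k : ℕ, ∀ ε : ℝ, 0 < ε → ∀ᶠ T in F,
      -(B * ∏ i ∈ Finset.range k, (β i / a) ^ 2) - ε ≤ s * E T a

/-- `s · E(T, a) ≥ - C exp(- c a / log (a + 2)) - o(1)` for all large `a` -/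
def ExpSided (F : Filter ℝ) (s : ℝ) : Prop :=
  ∃ C c A : ℝ, 0 < c ∧ ∀ a, A ≤ a → 0 < a → ∀ ε : ℝ, 0 < ε → ∀ᶠ T in F,
    -(C * Real.exp (-(c * a / Real.log (a + 2)))) - ε ≤ s * E T a

/-- almost all zeros are simple and on the critical line, for the heights `T` along `F` -/
def AlmostAllGood (F : Filter ℝ) : Prop :=
  Tendsto (fun T => (Nbad T : ℝ) / (T * Real.log T)) F (𝓝 0)

/-- Unconditionally, for every filter `F` finer than `T → ∞`, the pair correlation conjecture along
`F` (the formula for every `a > 0`) is equivalent to each of the following conditions on `E(T, a)`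
at large distances `a` only: the one-sided LOWER bound with a quasi-analytically small error, or
with the error `C exp(-c a / log(a + 2))`; the one-sided UPPER bound with such an error, together
with `Nbad(T) = o(T log T)` along `F`. -/
theorem result (F : Filter ℝ) (hF : F ≤ atTop) :
    [PCC F, OneSided F 1, ExpSided F 1, AlmostAllGood F ∧ OneSided F (-1),
      AlmostAllGood F ∧ ExpSided F (-1)].TFAE := by
  obtain ⟨h1, h2, h3, -⟩ := Pool.Agent.W2helper24.FP.main F hF
  have hexp : ∀ s : ℝ, PCC F → ExpSided F s := by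
    intro s h
    refine ⟨0, 1, 1, one_pos, fun a _ ha ε hε => ?_⟩
    have h4 : Tendsto (fun T => s * E T a) F (𝓝 (s * 0)) := (h a ha).const_mul s
    rw [mul_zero] at h4
    filter_upwards [h4.eventually (lt_mem_nhds (neg_lt_zero.mpr hε))] with T hT
    linarith
  have hone : ∀ s : ℝ, ExpSided F s → OneSided F s := fun s ⟨C, c, A, hc, h⟩ => h3 s C c A hc h
  tfae_have 1 ↔ 2 := h1
  tfae_have 1 ↔ 4 := h2
  tfae_have 1 → 3 := hexp 1
  tfae_have 3 → 2 := hone 1
  tfae_have 1 → 5 := fun h => ⟨(h2.mp h).1, hexp (-1) h⟩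
  tfae_have 5 → 4 := fun h => ⟨h.1, hone (-1) h.2⟩
  tfae_finish

end Pool.Agent.Results.MP_f58427_nt.LargeDistances
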