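import Pool.Agent.W2helper93.SW.Low
import Pool.Agent.W2helper93.NV.Mom

namespace Pool.Agent.Results.MP_f58427_nt.SmoothWindows

/-- multiplicity of `s` as a zero of the Riemann zeta function (order of vanishing at `s`) -/
noncomputable def zmult (s : ℂ) : ℕ := analyticOrderNatAt riemannZeta s

/-- the nontrivial zeros of `ζ` -/
def ZZ : Set ℂ := {s : ℂ | riemannZeta s = 0 ∧ 0 < s.re ∧ s.re < 1}

/-- `N*(T, a)` as in the problem: the number of ordered pairs `(γ, γ')` of ordinates of nontrivial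
zeros, counted with multiplicity, with `0 < γ ≤ T` and `0 < γ - γ' ≤ 2πa / log T` -/
noncomputable def Nstar (T a : ℝ) : ℕ :=
  ∑ᶠ p ∈ {p : ℂ × ℂ | p.1 ∈ ZZ ∧ p.2 ∈ ZZ ∧ 0 < p.1.im ∧ p.1.im ≤ T ∧
    0 < p.1.im - p.2.im ∧ p.1.im - p.2.im ≤ 2 * Real.pi * a / Real.log T}, zmult p.1 * zmult p.2

/-- `M(a) = (1/2π) ∫_0^a (1 - (sin πu / πu)²) du`, the limit conjectured in Q1 -/
noncomputable def M (a : ℝ) : ℝ :=
  1 / (2 * Real.pi) * ∫ u in (0 : ℝ)..a, (1 - (Real.sin (Real.pi * u) / (Real.pi * u)) ^ 2)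

/-- `N(T)`: the number of nontrivial zeros with ordinate in `(0, T]`, with multiplicity -/
noncomputable def NT (T : ℝ) : ℕ :=
  ∑ᶠ s ∈ {s : ℂ | s ∈ ZZ ∧ 0 < s.im ∧ s.im ≤ T}, zmult s

/-- the number of ordered pairs `(γ, γ')` of ordinates with `0 < γ ≤ T` and `γ = γ'`, with
multiplicity (so it is at least `N(T)`) -/
noncomputable def NE (T : ℝ) : ℕ :=
  ∑ᶠ p ∈ {p : ℂ × ℂ | p.1 ∈ ZZ ∧ p.2 ∈ ZZ ∧ 0 < p.1.im ∧ p.1.im ≤ T ∧ p.1.im = p.2.im},
    zmult p.1 * zmult p.2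

/-- the pair correlation sum `(2π / (T log T)) ∑_{0 < γ, γ' ≤ T} f((γ - γ') (log T) / 2π)` over all
ordered pairs of nontrivial zeros, with multiplicity, including the pairs with `γ = γ'` -/
noncomputable def PC (T : ℝ) (f : ℝ → ℝ) : ℝ :=
  2 * Real.pi / (T * Real.log T) *
    ∑ᶠ p ∈ {p : ℂ × ℂ | p.1 ∈ ZZ ∧ p.2 ∈ ZZ ∧ 0 < p.1.im ∧ p.1.im ≤ T ∧ 0 < p.2.im ∧ p.2.im ≤ T},
      (zmult p.1 : ℝ) * (zmult p.2 : ℝ) * f ((p.1.im - p.2.im) * (Real.log T / (2 * Real.pi)))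

/-- its conjectured value `f(0) + ∫ f(x) (1 - (sin πx / πx)²) dx` -/
noncomputable def GUE (f : ℝ → ℝ) : ℝ :=
  f 0 + ∫ x, f x * (1 - (Real.sin (Real.pi * x) / (Real.pi * x)) ^ 2)

/-- Pair correlation of the zeros of `ζ` against smooth windows, unconditionally, with one
constant `C` and all large `T`:
(1) `C⁴` windows supported in `[-A, A]` with smoothness scale `W`, in the range
`(1 + A)^5 ≤ log T`;
(2) in the same range, smooth averages over `[a - W, a + W]` of the corrected discrepancy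
`N*(T, a) + (NE(T) - N(T))/2 - M(a) T log T` are `O(W⁻² T log T)`. -/
theorem result : ∃ C T0 : ℝ, 0 < C ∧ 2 ≤ T0 ∧ ∀ T : ℝ, T0 ≤ T →
    (∀ f : ℝ → ℝ, ContDiff ℝ 4 f → ∀ A W : ℝ, 0 < W → W ≤ A → (1 + A) ^ 5 ≤ Real.log T →
      (∀ x, A < |x| → f x = 0) →
      |PC T f - GUE f| ≤ C * ((∫ x, |f x|) / A ^ 3 + (∫ x, |iteratedDeriv 1 f x|) / W ^ 2 +
        (∫ x, |iteratedDeriv 2 f x|) / W + W * ∫ x, |iteratedDeriv 4 f x|)) ∧
    (∀ w : ℝ → ℝ, ContDiff ℝ 3 w → (∀ x, 1 < |x| → w x = 0) → ∀ a W : ℝ, 0 < W → W ≤ a →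
      (1 + a + W) ^ 5 ≤ Real.log T →
      |∫ v in (-1 : ℝ)..1, w v * ((Nstar T (a + W * v) : ℝ) + ((NE T : ℝ) - (NT T : ℝ)) / 2 -
        M (a + W * v) * (T * Real.log T))| ≤
        C * ((∫ x, |w x|) + (∫ x, |iteratedDeriv 1 w x|) + ∫ x, |iteratedDeriv 3 w x|) *
          (T * Real.log T / W ^ 2)) := by
  obtain ⟨lam, hlam, hW⟩ := Pool.Agent.W2helper93.NV.wmom
  obtain ⟨C1, T1, hC1, hT1, h1⟩ := Pool.Agent.W2helper93.SW.gau_all hlam hW
  obtain ⟨C2, T2, hC2, hT2, h2⟩ := Pool.Agent.W2helper93.SW.msc_all hlam hW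
  obtain ⟨C3, T3, hC3, hT3, h3⟩ := Pool.Agent.W2helper93.SW.nav hlam hW
  have hgue : ∀ f : ℝ → ℝ, GUE f = Pool.Agent.W2helper93.SW.gue f := by
    intro f
    unfold GUE Pool.Agent.W2helper93.SW.gue Pool.Agent.W2helper93.SW.ks
    congr 1
    refine MeasureTheory.integral_congr_ae ?_
    have h0 : ∀ᵐ x : ℝ, x ≠ 0 := by
      rw [MeasureTheory.ae_iff]
      simp
    filter_upwards [h0] with x hx
    rw [Real.sinc_of_ne_zero (mul_ne_zero Real.pi_pos.ne' hx)]
  have hpc : ∀ (T : ℝ) (f : ℝ → ℝ), PC T f =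
      2 * Real.pi / (T * Real.log T) * Pool.Agent.W2helper93.SW.PF T f := fun T f => rfl
  have hit : ∀ (n : ℕ) (f : ℝ → ℝ), ContDiff ℝ (n + 1 : ℕ) f → ∀ x,
      HasDerivAt (iteratedDeriv n f) (iteratedDeriv (n + 1) f x) x := by
    intro n f hf x
    have hd : Differentiable ℝ (iteratedDeriv n f) :=
      hf.differentiable_iteratedDeriv n (by exact_mod_cast Nat.lt_succ_self n)
    rw [iteratedDeriv_succ]
    exact (hd x).hasDerivAt
  have hsupp : ∀ (A : ℝ) (n : ℕ) (f : ℝ → ℝ), (∀ x, A < |x| → f x = 0) → ∀ x, A < |x| →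
      iteratedDeriv n f x = 0 := by
    intro A n f hf
    induction n with
    | zero => intro x hx; rw [iteratedDeriv_zero]; exact hf x hx
    | succ n ih =>
      intro x hx
      rw [iteratedDeriv_succ]
      have hev : iteratedDeriv n f =ᶠ[nhds x] fun _ => (0 : ℝ) := by
        have : ∀ᶠ y in nhds x, A < |y| := continuous_abs.continuousAt.eventually_const_lt hx
        filter_upwards [this] with y hy
        exact ih y hy
      rw [hev.deriv_eq, deriv_const]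
  refine ⟨C1 + C2 + C3, max T1 (max T2 T3), by positivity, by linarith [le_max_left T1 (max T2 T3)],
    fun T hT => ?_⟩
  have hTT1 : T1 ≤ T := (le_max_left _ _).trans hT
  have hTT2 : T2 ≤ T := ((le_max_left _ _).trans (le_max_right _ _)).trans hT
  have hTT3 : T3 ≤ T := ((le_max_right _ _).trans (le_max_right _ _)).trans hT
  have hT10 : 10 ≤ T := hT1.trans hTT1
  have hL : 0 < Real.log T := Real.log_pos (by linarith)
  refine ⟨fun f hf A W hW hWA hA hs => ?_, fun w hw hs a W hW hWa hA => ?_⟩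
  · have hc : ∀ n : ℕ, n + 1 ≤ 4 → ContDiff ℝ (n + 1 : ℕ) f := fun n hn =>
      hf.of_le (by exact_mod_cast hn)
    have k := h2 T hTT2 f (iteratedDeriv 1 f) (iteratedDeriv 2 f) (iteratedDeriv 3 f)
      (iteratedDeriv 4 f) (fun x => by
        have := hit 0 f (hc 0 (by norm_num)) x
        rwa [iteratedDeriv_zero] at this) (hit 1 f (hc 1 (by norm_num)))
      (hit 2 f (hc 2 (by norm_num))) (hit 3 f (hc 3 (by norm_num)))
      (hf.continuous_iteratedDeriv 4 (by norm_num)) A hs (hsupp A 1 f hs) (hsupp A 2 f hs)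
      (hsupp A 3 f hs) (hsupp A 4 f hs) W hW hWA hA
    rw [hgue, hpc]
    refine k.trans ?_
    unfold Pool.Agent.W2helper93.SW.Kn
    have hA0 : 0 < A := hW.trans_le hWA
    have n0 : 0 ≤ ∫ x, |f x| := MeasureTheory.integral_nonneg fun z => abs_nonneg _
    have n1 : 0 ≤ ∫ x, |iteratedDeriv 1 f x| := MeasureTheory.integral_nonneg fun z => abs_nonneg _
    have n2 : 0 ≤ ∫ x, |iteratedDeriv 2 f x| := MeasureTheory.integral_nonneg fun z => abs_nonneg _
    have n4 : 0 ≤ ∫ x, |iteratedDeriv 4 f x| := MeasureTheory.integral_nonneg fun z => abs_nonneg _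
    refine mul_le_mul_of_nonneg_right (by linarith) (by positivity)
  · have hc : ∀ n : ℕ, n + 1 ≤ 3 → ContDiff ℝ (n + 1 : ℕ) w := fun n hn =>
      hw.of_le (by exact_mod_cast hn)
    have k := h3 T hTT3 w (iteratedDeriv 1 w) (iteratedDeriv 2 w) (iteratedDeriv 3 w)
      (fun x => by
        have := hit 0 w (hc 0 (by norm_num)) x
        rwa [iteratedDeriv_zero] at this) (hit 1 w (hc 1 (by norm_num)))
      (hit 2 w (hc 2 (by norm_num)))
      (hw.continuous_iteratedDeriv 3 (by norm_num)) hs (hsupp 1 1 w hs) (hsupp 1 2 w hs)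
      (hsupp 1 3 w hs) a W hW hWa hA
    have n0 : 0 ≤ ∫ x, |w x| := MeasureTheory.integral_nonneg fun z => abs_nonneg _
    have n1 : 0 ≤ ∫ x, |iteratedDeriv 1 w x| := MeasureTheory.integral_nonneg fun z => abs_nonneg _
    have n3 : 0 ≤ ∫ x, |iteratedDeriv 3 w x| := MeasureTheory.integral_nonneg fun z => abs_nonneg _
    have hT0 : 0 < T := by linarith
    have hq : 0 ≤ T * Real.log T / W ^ 2 := by positivity
    refine le_trans (le_of_eq ?_) (k.trans ?_)
    · rfl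
    · refine mul_le_mul_of_nonneg_right ?_ hq
      exact mul_le_mul_of_nonneg_right (by linarith) (by positivity)

end Pool.Agent.Results.MP_f58427_nt.SmoothWindows
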